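import Pool.Agent.TH214.Q.Main
import Pool.Agent.W558.WT.Asm3
import Pool.Agent.W558.Var
import Pool.Agent.W135.WT.Fam
import Pool.Agent.H519R3.RS.LUS

/-!
MP_3029eb_ag: local uniformization of the local rings of the quotients of products of surfaces of
characteristic `p` by finite abelian groups which act factorwise, if the order of the group of
automorphisms induced on each factor is not divisible by `p ^ 2`; for example of the quotients
`(X_1 × ... × X_n) / (ℤ/N)` by the diagonal action of a cyclic group of order `N = p * m`, `m` prime
to `p`. All even dimensions; the action may be wild and may have arbitrary fixed points.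

It follows from the resolution of singularities of these varieties
(MP_19ffc6_ag.AbelianQuotients of the starting files, helper214 and the library of helper558's
team) by the valuative criterion of properness (`H519R3.RS.LUS` of the starting files).
-/

set_option autoImplicit false

open AlgebraicGeometry CategoryTheory Pool.Agent.W558 Pool.Agent.H920R2 Pool.Agent.H519R3.RS

namespace Pool.Agent.Results.MP_3029eb_ag.AbelianQuotientsLU

/-- The algebra `B` with the homomorphisms `j i : A i → B` is the tensor product over `k` of the
algebras `A i`: homomorphisms `f i` from the `A i` to a commutative `k`-algebra `S` correspond to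
homomorphisms `g` from `B` to `S`. So `Spec B` is the product of the `Spec (A i)` over `k`. -/
def IsTensorProduct {k : Type} [Field k] {n : ℕ} {A : Fin n → Type} [∀ i, CommRing (A i)]
    [∀ i, Algebra k (A i)] {B : Type} [CommRing B] [Algebra k B] (j : ∀ i, A i →ₐ[k] B) :
    Prop :=
  ∀ (S : Type) [CommRing S] [Algebra k S] (f : ∀ i, A i →ₐ[k] S),
    ∃! g : B →ₐ[k] S, ∀ i a, g (j i a) = f i a

/-- The coordinate ring `k[H_0 / H_j, ..., H_N / H_j]` of the chart `H_j ≠ 0` of the projective
variety over `k` with the homogeneous coordinates `H_0, ..., H_N` in a field `K`. -/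
def chart (k : Type) {K : Type} [Field k] [Field K] [Algebra k K] {N : ℕ}
    (H : Fin (N + 1) → K) (j : Fin (N + 1)) : Subalgebra k K :=
  Algebra.adjoin k (Set.range fun l => H l / H j)

/-- The quotient of the affine variety `Spec A` by the group `G`, acting by the automorphisms
`ρ g`, is birational to a smooth projective variety. Here `K` is the fraction field of `A`, the
projective variety is given by homogeneous coordinates `H_0, ..., H_N` in `K`: its charts are
smooth over `k`, and its function field, the field of quotients of elements of a chart,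
consists of the invariant elements `a / b` of `K`, `(g a) / (g b) = a / b` for all `g ∈ G`. For
surfaces over finite fields this condition is always satisfied by the resolution of
singularities of surfaces. -/
def HasSmoothProjectiveQuotient {k A : Type} (K : Type) [Field k] [CommRing A] [Algebra k A]
    [Field K] [Algebra k K] [Algebra A K] {G : Type} [CommGroup G] (ρ : G →* (A ≃ₐ[k] A)) :
    Prop :=
  ∃ (N : ℕ) (H : Fin (N + 1) → K), (∀ l, H l ≠ 0) ∧
    (∀ j, Algebra.Smooth k (chart k H j)) ∧
    ∀ j (a b : A), b ≠ 0 → ((∀ g, ρ g a * b = a * ρ g b) ↔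
      ∃ u ∈ chart k H j, ∃ v ∈ chart k H j, v ≠ 0 ∧ algebraMap A K a / algebraMap A K b = u / v)

/-- The algebra of invariants of the group `G`. -/
def invariants {k B : Type} [Field k] [CommRing B] [Algebra k B] {G : Type} [CommGroup G]
    (ρ : G →* (B ≃ₐ[k] B)) : Subalgebra k B where
  carrier := {b | ∀ g, ρ g b = b}
  mul_mem' := fun ha hb g => by rw [map_mul, ha g, hb g]
  add_mem' := fun ha hb g => by rw [map_add, ha g, hb g]
  algebraMap_mem' := fun c g => AlgEquiv.commutes _ c

/-- Let `p` be a prime, `m > 0`, and let `k` be a perfect field of characteristic `p` which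
contains a primitive `m`-th root of unity (so `m` is prime to `p`). Let `G` be a finite
commutative group with `g ^ (p * m) = 1` for all `g ∈ G`. Let `Spec (A i)`, `i < n`, be affine
surfaces over `k`: the `A i` are domains of finite type and of dimension 2 over `k`. Let `G` act on
the `A i` by automorphisms over `k` such that the order of the group of automorphisms of `A i`
induced by `G` is not divisible by `p ^ 2`, and such that the quotient of `Spec (A i)` by `G` is
birational to a smooth projective surface (this is always the case). Let `Spec B` be the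
product of the surfaces over `k`, assumed to be integral, with the diagonal action of `G`. Then
the local ring `R` of the quotient of `Spec B` by `G` at any point, that is, of the algebra of
invariants at a prime ideal `Q`, admits local uniformization. -/
theorem result (p : ℕ) [Fact p.Prime] (k : Type) [Field k] [PerfectField k] [CharP k p] (m : ℕ)
    (hm : 0 < m) (ζ : k) (hζ : IsPrimitiveRoot ζ m) (G : Type) [CommGroup G] [Finite G]
    (hG : ∀ g : G, g ^ (p * m) = 1) (n : ℕ) (A K : Fin n → Type) [∀ i, CommRing (A i)]
    [∀ i, IsDomain (A i)] [∀ i, Algebra k (A i)] [∀ i, Algebra.FiniteType k (A i)]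
    (hA : ∀ i, Algebra.trdeg k (A i) = 2) [∀ i, Field (K i)] [∀ i, Algebra k (K i)]
    [∀ i, Algebra (A i) (K i)] [∀ i, IsScalarTower k (A i) (K i)]
    [∀ i, IsFractionRing (A i) (K i)] (ρ : ∀ i, G →* (A i ≃ₐ[k] A i))
    (hρ : ∀ i, ¬ p ^ 2 ∣ Nat.card (ρ i).range)
    (hq : ∀ i, HasSmoothProjectiveQuotient (K i) (ρ i))
    (B : Type) [CommRing B] [IsDomain B] [Algebra k B] (j : ∀ i, A i →ₐ[k] B)
    (hj : IsTensorProduct j) (σ : G →* (B ≃ₐ[k] B))
    (hσ : ∀ g i a, σ g (j i a) = j i (ρ i g a))
    (Q : Ideal (invariants σ)) [Q.IsPrime] (R : Type) [CommRing R] [IsLocalRing R]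
    [Algebra (invariants σ) R] [IsLocalization.AtPrime R Q] : AdmitsLU R := by
  have hj' : Pool.Agent.W558.WT.IsTP j := by
    refine ⟨fun S _ _ f => (hj S f).exists, fun S _ _ g g' h => ?_⟩
    exact (hj S fun i => g.comp (j i)).unique (fun i a => rfl) fun i a => (h i a).symm
  have hfG : Fintype G := Fintype.ofFinite G
  have hm' : ∀ i, Algebra.trdeg k (Pool.Agent.W558.WT.fixF
      (Set.range (Pool.Agent.TH214.Q.liftG (K i) (ρ i)))) = 2 ∧
      Pool.Agent.W558.HasModel k (Pool.Agent.W558.WT.fixF
        (Set.range (Pool.Agent.TH214.Q.liftG (K i) (ρ i)))) := by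
    intro i
    obtain ⟨N, H, h1, h2, h3⟩ := hq i
    exact Pool.Agent.TH214.Q.modG k (A i) (K i) (ρ i) (Pool.Agent.TH214.Q.liftG (K i) (ρ i))
      (fun g a => Pool.Agent.TH214.Q.liftG_app (K i) (ρ i) g a) (hA i) N H h1 h2 h3
  obtain ⟨-, h2⟩ := Pool.Agent.TH214.Q.quotA Pool.Agent.W558.wt_pack Pool.Agent.W558.ws_pack
    Pool.Agent.W558.wt_fri Pool.Agent.W558.wt_art
    (Pool.Agent.W135.WT.Fam.main Pool.Agent.W558.wa_prod) p k n A K B j hj' ρ σ hζ hm hG
    (fun i g g' hg hg' hne => Pool.Agent.TH214.Q.cyc_of_card (ρ i) (hρ i) g g' hg hg' hne)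
    (fun i => (hm' i).1) (fun i => (hm' i).2) hσ (invariants σ) (fun b => Iff.rfl)
  exact admitsLU_of_res h2 Q R

end Pool.Agent.Results.MP_3029eb_ag.AbelianQuotientsLU
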